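import Pool.Agent.H112R2.FinalGap

/-!
# Freiman-Ruzsa for sets of slow growth: iterated sumsets, shrinking a progression
-/

set_option autoImplicit false

open scoped Pointwise

namespace Pool.Agent.E9helper80.PFR

/-- the `n`-fold sumset `A + A + ... + A` -/
def nfold {Γ : Type*} [AddCommGroup Γ] [DecidableEq Γ] (A : Finset Γ) : ℕ → Finset Γ
  | 0 => {0}
  | (n + 1) => nfold A n + A

section
variable {Γ : Type*} [AddCommGroup Γ] [DecidableEq Γ] {A : Finset Γ}

theorem nfold_one : nfold A 1 = A := by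
  show {0} + A = A
  rw [Finset.singleton_zero, zero_add]

theorem nfold_nonempty (hA : A.Nonempty) : ∀ n, (nfold A n).Nonempty
  | 0 => by simp [nfold]
  | (n + 1) => (nfold_nonempty hA n).add hA

theorem nfold_add (m : ℕ) : ∀ n, nfold A (m + n) = nfold A m + nfold A n
  | 0 => by
    show nfold A m = nfold A m + {0}
    rw [Finset.singleton_zero, add_zero]
  | (n + 1) => by
    show nfold A (m + n) + A = nfold A m + (nfold A n + A)
    rw [nfold_add m n, add_assoc]

theorem nfold_card_mono (hA : A.Nonempty) {m n : ℕ} (h : m ≤ n) :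
    (nfold A m).card ≤ (nfold A n).card := by
  obtain ⟨l, rfl⟩ := Nat.exists_eq_add_of_le h
  rw [nfold_add]
  exact Finset.card_le_card_add_right (nfold_nonempty hA l)

/-- among `j` doublings one has a doubling constant at most the geometric mean -/
theorem exists_scale (hA : A.Nonempty) {M : ℝ} {j : ℕ} (hj : 1 ≤ j)
    (h : ((nfold A (2 ^ j)).card : ℝ) ≤ M * A.card) :
    ∃ i < j, ((nfold A (2 ^ (i + 1))).card : ℝ) ≤
      M ^ (1 / (j : ℝ)) * (nfold A (2 ^ i)).card := by
  have hApos : (0 : ℝ) < A.card := by exact_mod_cast hA.card_pos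
  have hM1 : 1 ≤ M := by
    have h1 : ((nfold A (2 ^ 0)).card : ℝ) ≤ (nfold A (2 ^ j)).card := by
      exact_mod_cast nfold_card_mono hA (Nat.pow_le_pow_right (by norm_num) (Nat.zero_le j))
    rw [pow_zero, nfold_one] at h1
    nlinarith
  by_contra hcon
  push Not at hcon
  have hc : 0 ≤ M ^ (1 / (j : ℝ)) := Real.rpow_nonneg (by linarith) _
  have hind : ∀ i, i ≤ j → (M ^ (1 / (j : ℝ))) ^ i * (A.card : ℝ) ≤ (nfold A (2 ^ i)).card ∧
      (1 ≤ i → (M ^ (1 / (j : ℝ))) ^ i * (A.card : ℝ) < (nfold A (2 ^ i)).card) := by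
    intro i
    induction i with
    | zero =>
      intro _
      refine ⟨?_, fun h => absurd h (by norm_num)⟩
      rw [pow_zero, pow_zero, nfold_one, one_mul]
    | succ i ih =>
      intro hi
      have h1 := (ih (by omega)).1
      have h2 := hcon i (by omega)
      have h3 : (M ^ (1 / (j : ℝ))) ^ (i + 1) * (A.card : ℝ) <
          (nfold A (2 ^ (i + 1))).card := by
        calc (M ^ (1 / (j : ℝ))) ^ (i + 1) * (A.card : ℝ)
            = M ^ (1 / (j : ℝ)) * ((M ^ (1 / (j : ℝ))) ^ i * (A.card : ℝ)) := by ring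
          _ ≤ M ^ (1 / (j : ℝ)) * (nfold A (2 ^ i)).card := mul_le_mul_of_nonneg_left h1 hc
          _ < _ := h2
      exact ⟨h3.le, fun _ => h3⟩
  have h1 := (hind j le_rfl).2 hj
  have h2 : (M ^ (1 / (j : ℝ))) ^ j = M := by
    rw [← Real.rpow_natCast, ← Real.rpow_mul (by linarith)]
    have : (1 / (j : ℝ)) * j = 1 := by
      have : (j : ℝ) ≠ 0 := by positivity
      field_simp
    rw [this, Real.rpow_one]
  rw [h2] at h1
  linarith

end

/-- shrinking a box: a box with at most `2 ^ s N` points is covered by `5 ^ s` translates of a box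
with at most `N` points -/
theorem shrink {k : ℕ} {N : ℕ} (hN : 1 ≤ N) : ∀ (s : ℕ) (L : Fin k → ℕ),
    ∏ i, (2 * L i + 1) ≤ 2 ^ s * N →
    ∃ (L' : Fin k → ℕ) (D : Finset (Fin k → ℤ)), (∀ i, L' i ≤ L i) ∧
      ∏ i, (2 * L' i + 1) ≤ N ∧ D.card ≤ 5 ^ s ∧
      ∀ c : Fin k → ℤ, (∀ i, |c i| ≤ L i) → ∃ d ∈ D, ∃ c' : Fin k → ℤ,
        (∀ i, |c' i| ≤ L' i) ∧ c = d + c' := by
  intro s
  induction s with
  | zero =>
    intro L hL
    refine ⟨L, {0}, fun i => le_rfl, by simpa using hL, by simp, fun c hc => ⟨0, by simp, c, hc, ?_⟩⟩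
    rw [zero_add]
  | succ s ih =>
    intro L hL
    by_cases hle : ∏ i, (2 * L i + 1) ≤ N
    · refine ⟨L, {0}, fun i => le_rfl, hle, ?_, fun c hc => ⟨0, by simp, c, hc, ?_⟩⟩
      · simpa using Nat.one_le_pow _ _ (by norm_num)
      · rw [zero_add]
    · -- some `L i` is positive
      have hex : ∃ i, 1 ≤ L i := by
        by_contra hcon
        push Not at hcon
        apply hle
        have : ∀ i, 2 * L i + 1 = 1 := fun i => by have := hcon i; omega
        simp only [this, Finset.prod_const_one]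
        exact hN
      obtain ⟨i, hi⟩ := hex
      set q : ℕ := (L i - 1) / 2 with hq
      set L1 : Fin k → ℕ := Function.update L i q with hL1
      have hprod : 2 * ∏ j, (2 * L1 j + 1) ≤ ∏ j, (2 * L j + 1) := by
        rw [← Finset.mul_prod_erase Finset.univ (fun j => 2 * L1 j + 1) (Finset.mem_univ i),
          ← Finset.mul_prod_erase Finset.univ (fun j => 2 * L j + 1) (Finset.mem_univ i)]
        have h1 : ∏ j ∈ Finset.univ.erase i, (2 * L1 j + 1) =
            ∏ j ∈ Finset.univ.erase i, (2 * L j + 1) := by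
          refine Finset.prod_congr rfl fun j hj => ?_
          rw [hL1, Function.update_of_ne (Finset.ne_of_mem_erase hj)]
        rw [h1, ← mul_assoc]
        refine Nat.mul_le_mul_right _ ?_
        rw [hL1, Function.update_self]
        omega
      have h2 : ∏ j, (2 * L1 j + 1) ≤ 2 ^ s * N := by
        have : 2 * ∏ j, (2 * L1 j + 1) ≤ 2 * (2 ^ s * N) := by
          calc _ ≤ _ := hprod
            _ ≤ 2 ^ (s + 1) * N := hL
            _ = _ := by ring
        omega
      obtain ⟨L', D, hL', hN', hD, hcov⟩ := ih L1 h2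
      refine ⟨L', (Finset.Icc (-2 : ℤ) 2).image
          (fun m : ℤ => (Pi.single i (m * (2 * (q : ℤ) + 1)) : Fin k → ℤ)) + D,
        fun j => ?_, hN', ?_, fun c hc => ?_⟩
      · refine (hL' j).trans ?_
        by_cases hj : j = i
        · subst hj; rw [hL1, Function.update_self]; omega
        · rw [hL1, Function.update_of_ne hj]
      · calc _ ≤ ((Finset.Icc (-2 : ℤ) 2).image
              (fun m : ℤ => (Pi.single i (m * (2 * (q : ℤ) + 1)) : Fin k → ℤ))).card * D.card :=
              Finset.card_add_le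
          _ ≤ 5 * 5 ^ s := by
              refine Nat.mul_le_mul (Finset.card_image_le.trans ?_) hD
              simp
          _ = 5 ^ (s + 1) := by ring
      · -- the multiple of `2 q + 1` next to `c i`
        have hci := abs_le.1 (hc i)
        obtain ⟨m, hm, hmq⟩ : ∃ m ∈ Finset.Icc (-2 : ℤ) 2, |c i - m * (2 * q + 1)| ≤ q := by
          have hq0 : (0 : ℤ) ≤ q := Int.natCast_nonneg _
          have hLq : (L i : ℤ) ≤ 2 * q + 2 := by
            have : L i ≤ 2 * q + 2 := by omega
            exact_mod_cast this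
          -- division with remainder of `c i + q`
          have hpos : (0 : ℤ) < 2 * q + 1 := by linarith
          refine ⟨(c i + q) / (2 * q + 1), ?_, ?_⟩
          · rw [Finset.mem_Icc]
            constructor
            · rw [Int.le_ediv_iff_mul_le hpos]; nlinarith
            · rw [← Int.lt_add_one_iff, Int.ediv_lt_iff_lt_mul hpos]; nlinarith
          · have h1 := Int.emod_add_mul_ediv (c i + q) (2 * q + 1)
            have h2 := Int.emod_nonneg (c i + q) hpos.ne'
            have h3 := Int.emod_lt_of_pos (c i + q) hpos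
            have h4 : c i - (c i + q) / (2 * q + 1) * (2 * q + 1) = (c i + q) % (2 * q + 1) - q := by
              linarith [mul_comm ((c i + q) / (2 * q + 1)) (2 * (q : ℤ) + 1)]
            rw [h4, abs_le]
            constructor <;> linarith
        obtain ⟨d, hd, c', hc', he⟩ := hcov (c - Pi.single i (m * (2 * q + 1))) (fun j => by
          by_cases hj : j = i
          · subst hj
            rw [Pi.sub_apply, Pi.single_eq_same, hL1, Function.update_self]
            exact hmq
          · rw [Pi.sub_apply, Pi.single_eq_of_ne hj, sub_zero, hL1, Function.update_of_ne hj]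
            exact hc j)
        refine ⟨Pi.single i (m * (2 * q + 1)) + d,
          Finset.add_mem_add (Finset.mem_image_of_mem _ hm) hd, c', hc', ?_⟩
        rw [add_assoc, ← he]
        abel

/-- the basic covering statement at one scale -/
theorem cover_scale {Γ : Type*} [AddCommGroup Γ] [DecidableEq Γ]
    (htf : ∀ (n : ℕ) (x : Γ), n ≠ 0 → n • x = 0 → x = 0) {A : Finset Γ} (hA : A.Nonempty)
    {M : ℝ} {j : ℕ} (hj : 1 ≤ j) (h : ((nfold A (2 ^ j)).card : ℝ) ≤ M * A.card) :
    ∃ (d : ℕ) (v : Fin d → Γ) (L : Fin d → ℕ) (T : Finset Γ),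
      (d : ℝ) ≤ 300 * Real.log (2 * M ^ (1 / (j : ℝ))) ∧
      (∀ a b : Fin d → ℤ, (∀ i, |a i| ≤ L i) → (∀ i, |b i| ≤ L i) →
        ∑ i, a i • v i = ∑ i, b i • v i → a = b) ∧
      ∏ i, (2 * L i + 1) ≤ A.card ∧
      (T.card : ℝ) ≤ (2 * M ^ (1 / (j : ℝ))) ^
        (17000 * (1 + Real.log (1 + Real.log (2 * M ^ (1 / (j : ℝ)))))) * (5 * M ^ (3 : ℝ)) ∧
      ∀ a ∈ A, ∃ t ∈ T, ∃ c : Fin d → ℤ, (∀ i, |c i| ≤ L i) ∧ a = t + ∑ i, c i • v i := by
  have hApos : (0 : ℝ) < A.card := by exact_mod_cast hA.card_pos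
  have hM1 : 1 ≤ M := by
    have h1 : ((nfold A (2 ^ 0)).card : ℝ) ≤ (nfold A (2 ^ j)).card := by
      exact_mod_cast nfold_card_mono hA (Nat.pow_le_pow_right (by norm_num) (Nat.zero_le j))
    rw [pow_zero, nfold_one] at h1
    nlinarith
  obtain ⟨i, hij, hi⟩ := exists_scale hA hj h
  set B := nfold A (2 ^ i) with hB
  have hBne : B.Nonempty := nfold_nonempty hA _
  have hBB : B + B = nfold A (2 ^ (i + 1)) := by
    rw [hB, ← nfold_add, pow_succ]
    congr 1
    ring
  have hK : ((B + B).card : ℝ) ≤ M ^ (1 / (j : ℝ)) * B.card := by rw [hBB]; exact hi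
  obtain ⟨d, v, L, T, hd, hprop, hvol, hT, hcov⟩ := H112.near_pfr_gap htf hBne hK
  have hBM : (B.card : ℝ) ≤ M * A.card := by
    refine le_trans ?_ h
    exact_mod_cast nfold_card_mono hA (Nat.pow_le_pow_right (by norm_num) hij.le)
  set s : ℕ := ⌈Real.logb 2 M⌉₊ with hs
  have hs2 : M ≤ 2 ^ s := by
    have h1 : Real.logb 2 M ≤ s := Nat.le_ceil _
    rw [Real.logb_le_iff_le_rpow (by norm_num) (by linarith)] at h1
    rwa [Real.rpow_natCast] at h1
  have hvol2 : ∏ i, (2 * L i + 1) ≤ 2 ^ s * A.card := by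
    have : ((∏ i, (2 * L i + 1) : ℕ) : ℝ) ≤ ((2 ^ s * A.card : ℕ) : ℝ) := by
      calc ((∏ i, (2 * L i + 1) : ℕ) : ℝ) ≤ B.card := by exact_mod_cast hvol
        _ ≤ M * A.card := hBM
        _ ≤ 2 ^ s * A.card := mul_le_mul_of_nonneg_right hs2 hApos.le
        _ = _ := by push_cast; ring
    exact_mod_cast this
  obtain ⟨L', D, hL', hN', hD, hcov'⟩ := shrink hA.card_pos s L hvol2
  obtain ⟨b0, hb0⟩ := nfold_nonempty hA (2 ^ i - 1)
  refine ⟨d, v, L', (T + D.image fun c => ∑ i, c i • v i).image fun t => t - b0, hd,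
    fun a b ha hb => hprop a b (fun i => (ha i).trans (by exact_mod_cast hL' i))
      (fun i => (hb i).trans (by exact_mod_cast hL' i)), hN', ?_, ?_⟩
  · have h1 : ((T + D.image fun c => ∑ i, c i • v i).image fun t => t - b0).card ≤
        T.card * 5 ^ s :=
      Finset.card_image_le.trans (Finset.card_add_le.trans
        (Nat.mul_le_mul_left _ (Finset.card_image_le.trans hD)))
    have h5 : (5 : ℝ) ^ s ≤ 5 * M ^ (3 : ℝ) := by
      have h2 : (s : ℝ) ≤ Real.logb 2 M + 1 := (Nat.ceil_lt_add_one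
        (Real.logb_nonneg (by norm_num) hM1)).le
      calc (5 : ℝ) ^ s = (5 : ℝ) ^ (s : ℝ) := (Real.rpow_natCast _ _).symm
        _ ≤ (5 : ℝ) ^ (Real.logb 2 M + 1) := Real.rpow_le_rpow_of_exponent_le (by norm_num) h2
        _ = 5 * (5 : ℝ) ^ (Real.logb 2 M) := by
            rw [Real.rpow_add (by norm_num), Real.rpow_one]; ring
        _ ≤ 5 * ((2 : ℝ) ^ (3 : ℝ)) ^ (Real.logb 2 M) := by
            refine mul_le_mul_of_nonneg_left ?_ (by norm_num)
            exact Real.rpow_le_rpow (by norm_num) (by norm_num) (Real.logb_nonneg (by norm_num) hM1)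
        _ = 5 * M ^ (3 : ℝ) := by
            rw [← Real.rpow_mul (by norm_num), mul_comm (3 : ℝ), Real.rpow_mul (by norm_num),
              Real.rpow_logb (by norm_num) (by norm_num) (by linarith)]
    calc ((((T + D.image fun c => ∑ i, c i • v i).image fun t => t - b0).card : ℕ) : ℝ)
        ≤ ((T.card * 5 ^ s : ℕ) : ℝ) := by exact_mod_cast h1
      _ = (T.card : ℝ) * 5 ^ s := by push_cast; ring
      _ ≤ _ := mul_le_mul hT h5 (by positivity) (le_trans (Nat.cast_nonneg _) hT)
  · intro a ha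
    have hab : a + b0 ∈ B := by
      have h1 : B = nfold A (2 ^ i - 1) + nfold A 1 := by
        rw [hB, ← nfold_add]
        congr 1
        have := Nat.one_le_two_pow (n := i)
        omega
      rw [h1, nfold_one, add_comm a b0]
      exact Finset.add_mem_add hb0 ha
    obtain ⟨t, ht, c, hc, e⟩ := hcov _ hab
    obtain ⟨dd, hdd, c', hc', he⟩ := hcov' c hc
    refine ⟨t + ∑ i, dd i • v i - b0, Finset.mem_image_of_mem _
      (Finset.add_mem_add ht (Finset.mem_image_of_mem _ hdd)), c', hc', ?_⟩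
    have h2 : ∑ i, c i • v i = ∑ i, dd i • v i + ∑ i, c' i • v i := by
      rw [← Finset.sum_add_distrib]
      refine Finset.sum_congr rfl fun i _ => ?_
      rw [he, Pi.add_apply, add_smul]
    rw [h2] at e
    calc a = (a + b0) - b0 := by abel
      _ = _ := by rw [e]; abel

end Pool.Agent.E9helper80.PFR
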