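import Pool.Agent.E9helper80.PFR.Slow

/-!
# Freiman-Ruzsa with polynomial bounds for sets of slow growth

Let `k A` be the `k`-fold sumset.  If `|k A| ≤ M |A|` for some `k ≥ 2` then `A` is covered by
`(2 M) ^ (C (1 + log (1 + log 2 M) / log k))` translates of a proper progression of rank at most
`C (1 + log (2 M) / log k)` and size at most `|A|`.  For `k = 2` this is the near-polynomial
Freiman-Ruzsa theorem of the starting files; as soon as `k ≥ (log 2 M) ^ ε` the bound
`(2 M) ^ (C (2 + 1 / ε))` is polynomial in `M`.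
-/

set_option autoImplicit false

open scoped Pointwise

namespace Pool.Agent.E9helper80.PFR.SlowGrowthLib

open Pool.Agent.E9helper80.PFR

theorem log_bounds {M : ℝ} (hM1 : 1 ≤ M) {k : ℕ} (hk : 2 ≤ k) :
    1 ≤ Nat.log 2 k ∧ Real.log (2 * M ^ (1 / (Nat.log 2 k : ℝ))) ≤
      Real.log 2 + 2 * Real.log 2 * (Real.log (2 * M) / Real.log k) ∧
    Real.log (2 * M ^ (1 / (Nat.log 2 k : ℝ))) ≤ Real.log (2 * M) ∧
    Real.log 2 ≤ Real.log (2 * M ^ (1 / (Nat.log 2 k : ℝ))) := by
  have hj : 1 ≤ Nat.log 2 k := Nat.log_pos (by norm_num) hk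
  have hjr : (1 : ℝ) ≤ Nat.log 2 k := by exact_mod_cast hj
  have hlog2 : 0 < Real.log 2 := Real.log_pos (by norm_num)
  have hk0 : (0 : ℝ) < k := by positivity
  have hℓ : 0 < Real.log k := Real.log_pos (by exact_mod_cast (by omega : 1 < k))
  have hℓj : Real.log k ≤ 2 * Nat.log 2 k * Real.log 2 := by
    have h1 : k < 2 ^ (Nat.log 2 k + 1) := Nat.lt_pow_succ_log_self (by norm_num) k
    have h2 : (k : ℝ) ≤ (2 : ℝ) ^ (Nat.log 2 k + 1) := by exact_mod_cast h1.le
    have h3 : Real.log k ≤ (Nat.log 2 k + 1 : ℕ) * Real.log 2 := by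
      rw [← Real.log_pow]; exact Real.log_le_log hk0 h2
    push_cast at h3
    nlinarith
  have hlogM : 0 ≤ Real.log M := Real.log_nonneg hM1
  have hM0 : 0 < M := by linarith
  have h2M : Real.log (2 * M) = Real.log 2 + Real.log M := Real.log_mul (by norm_num) hM0.ne'
  have hK : Real.log (2 * M ^ (1 / (Nat.log 2 k : ℝ))) =
      Real.log 2 + Real.log M / Nat.log 2 k := by
    rw [Real.log_mul (by norm_num) (Real.rpow_pos_of_pos hM0 _).ne', Real.log_rpow hM0]
    ring
  refine ⟨hj, ?_, ?_, ?_⟩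
  · rw [hK]
    have h4 : Real.log M / Nat.log 2 k ≤ 2 * Real.log 2 * (Real.log (2 * M) / Real.log k) := by
      rw [← mul_div_assoc, div_le_div_iff₀ (by linarith) hℓ]
      have h5 : Real.log M ≤ Real.log (2 * M) := by rw [h2M]; linarith
      calc Real.log M * Real.log k ≤ Real.log (2 * M) * (2 * Nat.log 2 k * Real.log 2) :=
            mul_le_mul h5 hℓj hℓ.le (by linarith)
        _ = _ := by ring
    linarith
  · rw [hK, h2M]
    have : Real.log M / Nat.log 2 k ≤ Real.log M := div_le_self hlogM hjr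
    linarith
  · rw [hK]
    have : 0 ≤ Real.log M / Nat.log 2 k := by positivity
    linarith

/-- **Freiman-Ruzsa with a bound interpolating between near-polynomial and polynomial.** -/
theorem result {Γ : Type*} [AddCommGroup Γ] [DecidableEq Γ]
    (htf : ∀ (n : ℕ) (x : Γ), n ≠ 0 → n • x = 0 → x = 0) (A : Finset Γ) (hA : A.Nonempty)
    (k : ℕ) (hk : 2 ≤ k) (M : ℝ) (hM : ((nfold A k).card : ℝ) ≤ M * A.card) :
    ∃ (d : ℕ) (v : Fin d → Γ) (L : Fin d → ℕ) (T : Finset Γ),
      (d : ℝ) ≤ 600 * (1 + Real.log (2 * M) / Real.log k) ∧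
      (∀ a b : Fin d → ℤ, (∀ i, |a i| ≤ L i) → (∀ i, |b i| ≤ L i) →
        ∑ i, a i • v i = ∑ i, b i • v i → a = b) ∧
      ∏ i, (2 * L i + 1) ≤ A.card ∧
      (T.card : ℝ) ≤
        (2 * M) ^ (100000 * (1 + Real.log (1 + Real.log (2 * M)) / Real.log k)) ∧
      (∀ ε : ℝ, 0 < ε → Real.log (2 * M) ^ ε ≤ k →
        (T.card : ℝ) ≤ (2 * M) ^ (100000 * (2 + 1 / ε))) ∧
      ∀ a ∈ A, ∃ t ∈ T, ∃ c : Fin d → ℤ, (∀ i, |c i| ≤ L i) ∧ a = t + ∑ i, c i • v i := by
  have hApos : (0 : ℝ) < A.card := by exact_mod_cast hA.card_pos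
  have hM1 : 1 ≤ M := by
    have h1 : ((nfold A 1).card : ℝ) ≤ (nfold A k).card := by
      exact_mod_cast nfold_card_mono hA (by omega)
    rw [nfold_one] at h1
    nlinarith
  obtain ⟨hj, hμ1, hμ2, hμ3⟩ := log_bounds hM1 hk
  have hM' : ((nfold A (2 ^ Nat.log 2 k)).card : ℝ) ≤ M * A.card := by
    refine le_trans ?_ hM
    exact_mod_cast nfold_card_mono hA (Nat.pow_log_le_self 2 (by omega))
  obtain ⟨d, v, L, T, hd, hprop, hvol, hT, hcov⟩ := cover_scale htf hA hj hM'
  set μ := Real.log (2 * M ^ (1 / (Nat.log 2 k : ℝ))) with hμ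
  set lam := Real.log (2 * M) with hlam
  set ℓ := Real.log k with hℓdef
  have hM0 : 0 < M := by linarith
  have hlog2 : 0.69 < Real.log 2 := by have := Real.log_two_gt_d9; linarith
  have hlog2' : Real.log 2 < 0.7 := by have := Real.log_two_lt_d9; linarith
  have hℓ2 : Real.log 2 ≤ ℓ := Real.log_le_log (by norm_num) (by exact_mod_cast hk)
  have hℓ : 0 < ℓ := by linarith
  have hlamM : lam = Real.log 2 + Real.log M := Real.log_mul (by norm_num) hM0.ne'
  have hlogM : 0 ≤ Real.log M := Real.log_nonneg hM1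
  have hlam0 : 0.69 < lam := by linarith
  have hμ0 : 0.69 < μ := by linarith
  set a := Real.log (1 + lam) with ha
  have ha0 : 0 ≤ a := Real.log_nonneg (by linarith)
  have hal : a ≤ lam := by
    have := Real.log_le_sub_one_of_pos (by linarith : 0 < 1 + lam)
    linarith
  have hratio : 0 ≤ lam / ℓ := by positivity
  have hratio2 : lam / ℓ * Real.log 2 ≤ lam := by
    rw [div_mul_eq_mul_div, div_le_iff₀ hℓ]
    nlinarith
  have hTbound : (T.card : ℝ) ≤ (2 * M) ^ (100000 * (1 + a / ℓ)) := by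
    refine hT.trans ?_
    have hK0 : 0 < 2 * M ^ (1 / (Nat.log 2 k : ℝ)) := by positivity
    have e1 : (2 * M ^ (1 / (Nat.log 2 k : ℝ))) ^ (17000 * (1 + Real.log (1 + μ))) =
        Real.exp (μ * (17000 * (1 + Real.log (1 + μ)))) := by
      rw [Real.rpow_def_of_pos hK0]
    have e2 : 5 * M ^ (3 : ℝ) = Real.exp (Real.log 5 + 3 * Real.log M) := by
      rw [Real.exp_add, Real.exp_log (by norm_num), Real.rpow_def_of_pos hM0, mul_comm (3 : ℝ)]
    have e3 : (2 * M) ^ (100000 * (1 + a / ℓ)) = Real.exp (lam * (100000 * (1 + a / ℓ))) := by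
      rw [Real.rpow_def_of_pos (by linarith)]
    rw [e1, e2, e3, ← Real.exp_add, Real.exp_le_exp]
    have h5 : Real.log 5 ≤ 3 * lam := by
      have : Real.log 5 ≤ Real.log (2 ^ 3) := Real.log_le_log (by norm_num) (by norm_num)
      rw [Real.log_pow] at this
      push_cast at this
      linarith
    have h6 : Real.log (1 + μ) ≤ a := Real.log_le_log (by linarith) (by linarith)
    have h60 : 0 ≤ Real.log (1 + μ) := Real.log_nonneg (by linarith)
    have h7 : μ * (1 + Real.log (1 + μ)) ≤ (Real.log 2 + 2 * Real.log 2 * (lam / ℓ)) * (1 + a) :=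
      mul_le_mul hμ1 (by linarith) (by linarith) (by positivity)
    have h8 : (Real.log 2 + 2 * Real.log 2 * (lam / ℓ)) * (1 + a) ≤ 4 * lam + 1.4 * (lam * (a / ℓ)) := by
      have h9 : Real.log 2 * a ≤ 1 * lam := mul_le_mul (by linarith) hal ha0 (by norm_num)
      have h12 : 0 ≤ lam * (a / ℓ) := by positivity
      have h10 : Real.log 2 * (lam * (a / ℓ)) ≤ 0.7 * (lam * (a / ℓ)) :=
        mul_le_mul_of_nonneg_right hlog2'.le h12
      have h11 : (Real.log 2 + 2 * Real.log 2 * (lam / ℓ)) * (1 + a) =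
          Real.log 2 + Real.log 2 * a + 2 * (lam / ℓ * Real.log 2) +
            2 * (Real.log 2 * (lam * (a / ℓ))) := by ring
      rw [h11]
      linarith
    have h12 : 0 ≤ lam * (a / ℓ) := by positivity
    calc μ * (17000 * (1 + Real.log (1 + μ))) + (Real.log 5 + 3 * Real.log M)
        = 17000 * (μ * (1 + Real.log (1 + μ))) + (Real.log 5 + 3 * Real.log M) := by ring
      _ ≤ 17000 * (4 * lam + 1.4 * (lam * (a / ℓ))) + (3 * lam + 3 * lam) := by
          have : Real.log M ≤ lam := by linarith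
          linarith
      _ ≤ lam * (100000 * (1 + a / ℓ)) := by
          have h13 : lam * (100000 * (1 + a / ℓ)) = 100000 * lam + 100000 * (lam * (a / ℓ)) := by
            ring
          rw [h13]
          linarith
  refine ⟨d, v, L, T, ?_, hprop, hvol, hTbound, fun ε hε hkε => ?_, hcov⟩
  · refine hd.trans ?_
    have h14 : Real.log 2 * (lam / ℓ) ≤ 0.7 * (lam / ℓ) :=
      mul_le_mul_of_nonneg_right hlog2'.le hratio
    linarith
  · refine hTbound.trans ?_
    refine Real.rpow_le_rpow_of_exponent_le (by linarith) ?_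
    have h1 : a / ℓ ≤ 1 + 1 / ε := by
      rw [div_le_iff₀ hℓ]
      rcases le_or_gt lam 1 with h2 | h2
      · have h3 : a ≤ Real.log 2 := Real.log_le_log (by linarith) (by linarith)
        have h4 : 0 ≤ 1 / ε * ℓ := by positivity
        nlinarith
      · have h3 : ε * Real.log lam ≤ ℓ := by
          rw [← Real.log_rpow (by linarith)]
          exact Real.log_le_log (Real.rpow_pos_of_pos (by linarith) _) hkε
        have h4 : a ≤ Real.log 2 + Real.log lam := by
          rw [← Real.log_mul (by norm_num) (by linarith)]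
          exact Real.log_le_log (by linarith) (by linarith)
        have h5 : Real.log lam ≤ 1 / ε * ℓ := by
          rw [one_div, inv_mul_eq_div, le_div_iff₀ hε]; linarith
        linarith
    linarith

end Pool.Agent.E9helper80.PFR.SlowGrowthLib
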